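import Mathlib

/-!
# A finitely generated ring isomorphic to its own square

Let `V = ℕ × ℕ → ℤ` and let `E` be the ring of additive endomorphisms of `V`.  In `E` there are
elements `s₀, s₁, t₀, t₁` with `tᵢ sⱼ = δᵢⱼ` and `s₀ t₀ + s₁ t₁ = 1`, and for every binary
sequence `x` an element `D x` with `D x = x₀ s₀ t₀ + s₁ D (shift x) t₁`.  The ring `R` generated
by the constant functions `s₀, s₁, t₀, t₁` and by `D` inside the ring of all functions from binary
sequences to `E` satisfies `R ≅ R × R`.
-/

set_option autoImplicit false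

namespace Pool.Agent.Results.MP_1ea425_al.SelfSquare

/-- the module on which everything acts -/
abbrev V := ℕ × ℕ → ℤ

/-- its ring of additive endomorphisms -/
abbrev E := AddMonoid.End V

def s0 : E where
  toFun f := fun p => if p.1 = 0 then f (Nat.unpair p.2) else 0
  map_zero' := by funext p; simp
  map_add' f g := by funext p; by_cases h : p.1 = 0 <;> simp [h]

def t0 : E where
  toFun f := fun p => f (0, Nat.pair p.1 p.2)
  map_zero' := rfl
  map_add' _ _ := rfl

def s1 : E where
  toFun f := fun p => if p.1 = 0 then 0 else f (p.1 - 1, p.2)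
  map_zero' := by funext p; simp
  map_add' f g := by funext p; by_cases h : p.1 = 0 <;> simp [h]

def t1 : E where
  toFun f := fun p => f (p.1 + 1, p.2)
  map_zero' := rfl
  map_add' _ _ := rfl

/-- the diagonal operator attached to a binary sequence -/
def D (x : ℕ → Bool) : E where
  toFun f := fun p => if x p.1 then f p else 0
  map_zero' := by funext p; simp
  map_add' f g := by funext p; by_cases h : x p.1 <;> simp [h]

theorem s0_apply (f : V) (p : ℕ × ℕ) : s0 f p = if p.1 = 0 then f (Nat.unpair p.2) else 0 := rfl
theorem t0_apply (f : V) (p : ℕ × ℕ) : t0 f p = f (0, Nat.pair p.1 p.2) := rfl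
theorem s1_apply (f : V) (p : ℕ × ℕ) : s1 f p = if p.1 = 0 then 0 else f (p.1 - 1, p.2) := rfl
theorem t1_apply (f : V) (p : ℕ × ℕ) : t1 f p = f (p.1 + 1, p.2) := rfl
theorem D_apply (x : ℕ → Bool) (f : V) (p : ℕ × ℕ) : D x f p = if x p.1 then f p else 0 := rfl

/-- prepend a letter to a sequence -/
def pre (b : Bool) (x : ℕ → Bool) : ℕ → Bool := fun n => Nat.casesOn n b x

theorem pre_zero (b : Bool) (x : ℕ → Bool) : pre b x 0 = b := rfl
theorem pre_succ (b : Bool) (x : ℕ → Bool) (n : ℕ) : pre b x (n + 1) = x n := rfl

theorem t1_D_s1 (b : Bool) (x : ℕ → Bool) : t1 * D (pre b x) * s1 = D x := by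
  apply AddMonoidHom.ext
  intro f
  funext p
  show (D (pre b x) (s1 f)) (p.1 + 1, p.2) = D x f p
  simp [D_apply, s1_apply, pre_succ]

theorem t0_D_s0 (b : Bool) (x : ℕ → Bool) :
    t0 * D (pre b x) * s0 = if b then 1 else 0 := by
  apply AddMonoidHom.ext
  intro f
  funext p
  cases b
  · show (D (pre false x) (s0 f)) (0, Nat.pair p.1 p.2) = 0
    simp [D_apply, pre_zero]
  · show (D (pre true x) (s0 f)) (0, Nat.pair p.1 p.2) = f p
    simp [D_apply, s0_apply, pre_zero]

theorem D_pre (b : Bool) (x : ℕ → Bool) :
    D (pre b x) = (if b then s0 * t0 else 0) + s1 * D x * t1 := by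
  apply AddMonoidHom.ext
  intro f
  funext p
  obtain ⟨n, m⟩ := p
  cases n with
  | zero =>
    cases b
    · show (if pre false x 0 then f (0, m) else 0) = (0 : V) (0, m) + s1 (D x (t1 f)) (0, m)
      simp [pre_zero, s1_apply]
    · show (if pre true x 0 then f (0, m) else 0) = s0 (t0 f) (0, m) + s1 (D x (t1 f)) (0, m)
      simp [pre_zero, s1_apply, s0_apply, t0_apply]
  | succ n =>
    cases b
    · show (if pre false x (n + 1) then f (n + 1, m) else 0)
        = (0 : V) (n + 1, m) + s1 (D x (t1 f)) (n + 1, m)
      simp [pre_succ, s1_apply, D_apply, t1_apply] <;> rfl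
    · show (if pre true x (n + 1) then f (n + 1, m) else 0)
        = s0 (t0 f) (n + 1, m) + s1 (D x (t1 f)) (n + 1, m)
      simp [pre_succ, s1_apply, s0_apply, D_apply, t1_apply] <;> rfl

/-- the five generators, as functions of the binary sequence -/
def gens : Set ((ℕ → Bool) → E) :=
  {fun _ => s0, fun _ => t0, fun _ => s1, fun _ => t1, D}

/-- the ring -/
def R : Subring ((ℕ → Bool) → E) := Subring.closure gens

theorem s0_mem : (fun _ => s0) ∈ R := Subring.subset_closure (by simp [gens])
theorem t0_mem : (fun _ => t0) ∈ R := Subring.subset_closure (by simp [gens])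
theorem s1_mem : (fun _ => s1) ∈ R := Subring.subset_closure (by simp [gens])
theorem t1_mem : (fun _ => t1) ∈ R := Subring.subset_closure (by simp [gens])
theorem D_mem : D ∈ R := Subring.subset_closure (by simp [gens])

/-- restriction to the sequences starting with `b`, shifted -/
def res (b : Bool) : ((ℕ → Bool) → E) →+* ((ℕ → Bool) → E) where
  toFun F := fun x => F (pre b x)
  map_one' := rfl
  map_mul' _ _ := rfl
  map_zero' := rfl
  map_add' _ _ := rfl

theorem res_D (b : Bool) :
    res b D = (if b then (fun _ => s0) * (fun _ => t0) else 0) + (fun _ => s1) * D * fun _ => t1 := by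
  funext x
  show D (pre b x) = _
  rw [D_pre]
  cases b <;> rfl

theorem res_mem (b : Bool) {F : (ℕ → Bool) → E} (hF : F ∈ R) : res b F ∈ R := by
  have h : R ≤ R.comap (res b) := by
    apply Subring.closure_le.mpr
    intro G hG
    rcases hG with rfl | rfl | rfl | rfl | rfl
    · exact s0_mem
    · exact t0_mem
    · exact s1_mem
    · exact t1_mem
    · show res b D ∈ R
      rw [res_D]
      refine add_mem ?_ (mul_mem (mul_mem s1_mem D_mem) t1_mem)
      cases b
      · exact zero_mem _
      · exact mul_mem s0_mem t0_mem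
  exact h hF

/-- the restriction maps from `R` to `R` -/
def resR (b : Bool) : R →+* R := (res b).restrict R R (fun _ h => res_mem b h)

theorem resR_surj (b : Bool) : Function.Surjective (resR b) := by
  have h : R ≤ R.map (res b) := by
    apply Subring.closure_le.mpr
    intro G hG
    rcases hG with rfl | rfl | rfl | rfl | rfl
    · exact ⟨_, s0_mem, rfl⟩
    · exact ⟨_, t0_mem, rfl⟩
    · exact ⟨_, s1_mem, rfl⟩
    · exact ⟨_, t1_mem, rfl⟩
    · refine ⟨(fun _ => t1) * D * fun _ => s1, mul_mem (mul_mem t1_mem D_mem) s1_mem, ?_⟩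
      funext x
      exact t1_D_s1 b x
  rintro ⟨F, hF⟩
  obtain ⟨G, hG, rfl⟩ := h hF
  exact ⟨⟨G, hG⟩, rfl⟩

/-- the central idempotent `x ↦ x 0` -/
def e : R := ⟨(fun _ => t0) * D * fun _ => s0, mul_mem (mul_mem t0_mem D_mem) s0_mem⟩

theorem resR_e_true : resR true e = 1 := by
  apply Subtype.ext
  funext x
  have := t0_D_s0 true x
  exact this

theorem resR_e_false : resR false e = 0 := by
  apply Subtype.ext
  funext x
  have := t0_D_s0 false x
  exact this

theorem joint_inj (F : R) (h0 : resR false F = 0) (h1 : resR true F = 0) : F = 0 := by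
  apply Subtype.ext
  funext x
  have hx : pre (x 0) (fun n => x (n + 1)) = x := by
    funext n
    cases n <;> rfl
  have g0 : ∀ y, F.1 (pre false y) = 0 := fun y => congrFun (congrArg Subtype.val h0) y
  have g1 : ∀ y, F.1 (pre true y) = 0 := fun y => congrFun (congrArg Subtype.val h1) y
  have : F.1 x = 0 := by
    rw [← hx]
    cases x 0
    · exact g0 _
    · exact g1 _
  exact this

theorem bij : Function.Bijective ((resR false).prod (resR true)) := by
  constructor
  · rw [injective_iff_map_eq_zero]
    intro F hF
    exact joint_inj F (congrArg Prod.fst hF) (congrArg Prod.snd hF)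
  · rintro ⟨a, b⟩
    obtain ⟨f, hf⟩ := resR_surj false a
    obtain ⟨g, hg⟩ := resR_surj true b
    refine ⟨(1 - e) * f + e * g, ?_⟩
    apply Prod.ext
    · show resR false ((1 - e) * f + e * g) = a
      rw [map_add, map_mul, map_mul, map_sub, map_one, resR_e_false, hf]
      simp
    · show resR true ((1 - e) * f + e * g) = b
      rw [map_add, map_mul, map_mul, map_sub, map_one, resR_e_true, hg]
      simp

theorem closure_top : Subring.closure ((fun F : R => F.1) ⁻¹' gens) = ⊤ := by
  rw [eq_top_iff]
  rintro ⟨F, hF⟩ -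
  induction hF using Subring.closure_induction with
  | mem x hx => exact Subring.subset_closure hx
  | zero => exact zero_mem _
  | one => exact one_mem _
  | add x y hx hy ihx ihy => exact add_mem ihx ihy
  | neg x hx ihx => exact neg_mem ihx
  | mul x y hx hy ihx ihy => exact mul_mem ihx ihy

theorem gens_finite : gens.Finite := by
  unfold gens
  exact Set.toFinite _

theorem one_ne : (1 : R) ≠ 0 := by
  intro h
  have h1 : (1 : E) = 0 := congrFun (congrArg Subtype.val h) (fun _ => false)
  have h2 : (1 : E) (fun _ => 1) = (0 : E) (fun _ => 1) := by rw [h1]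
  have h3 := congrFun h2 (0, 0)
  exact one_ne_zero h3

/-- There is a nonzero finitely generated associative ring with identity which is isomorphic, as a
ring, to the direct product of two copies of itself. -/
theorem result : ∃ (R : Type) (_ : Ring R), Nontrivial R ∧
    (∃ S : Finset R, Subring.closure (S : Set R) = ⊤) ∧ Nonempty (R ≃+* R × R) := by
  refine ⟨R, inferInstance, ⟨1, 0, one_ne⟩, ?_, ?_⟩
  · have hfin : ((fun F : R => F.1) ⁻¹' gens).Finite :=
      gens_finite.preimage Subtype.val_injective.injOn
    refine ⟨hfin.toFinset, ?_⟩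
    rw [Set.Finite.coe_toFinset]
    exact closure_top
  · exact ⟨RingEquiv.ofBijective ((resR false).prod (resR true)) bij⟩

end Pool.Agent.Results.MP_1ea425_al.SelfSquare
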